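import Pool.Agent.R955.FD.Defs

/-! FD-COV (helper173): reduction to finitely many intervals. -/

set_option autoImplicit false

namespace Pool.Agent.H173FD

open MeasureTheory Set Filter Topology
open scoped ENNReal
open Pool.Agent.R955.FD

/-- an order connected set of reals minus its interior is countable -/
theorem countable_diff_interior {J : Set ℝ} (hJ : J.OrdConnected) : (J \ interior J).Countable := by
  have h1 : ({x | x ∈ J ∧ ∀ y ∈ J, x ≤ y} : Set ℝ).Subsingleton := by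
    rintro x ⟨hx, hx'⟩ y ⟨hy, hy'⟩
    exact le_antisymm (hx' y hy) (hy' x hx)
  have h2 : ({x | x ∈ J ∧ ∀ y ∈ J, y ≤ x} : Set ℝ).Subsingleton := by
    rintro x ⟨hx, hx'⟩ y ⟨hy, hy'⟩
    exact le_antisymm (hy' x hx) (hx' y hy)
  refine (h1.countable.union h2.countable).mono ?_
  rintro x ⟨hx, hxi⟩
  by_contra hno
  rw [mem_union, mem_setOf_eq, mem_setOf_eq] at hno
  push Not at hno
  obtain ⟨y, hy, hyx⟩ := hno.1 hx
  obtain ⟨z, hz, hzx⟩ := hno.2 hx
  apply hxi
  refine mem_interior.2 ⟨Ioo y z, ?_, isOpen_Ioo, ⟨hyx, hzx⟩⟩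
  exact Ioo_subset_Icc_self.trans (hJ.out hy hz)

theorem t_COV (hABS : S_ABS) : S_COV := by
  intro ν q J A ε hν hq hJ hκ hε
  classical
  -- the bad set
  obtain ⟨E, hE⟩ : ∃ E : Set ℝ, E = (⋃ i, interior (J i))ᶜ ∩ Icc (-A) A := ⟨_, rfl⟩
  have hEcl : IsCompact E := by
    rw [hE, inter_comm]
    exact isCompact_Icc.inter_right (isOpen_iUnion fun i => isOpen_interior).isClosed_compl
  have hEc : E.Countable := by
    refine (countable_iUnion fun i => countable_diff_interior (hJ.1 i)).mono ?_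
    intro x hx
    rw [hE] at hx
    obtain ⟨i, hi⟩ := hJ.2.2 x
    rw [mem_iUnion]
    refine ⟨i, hi, fun h => hx.1 (mem_iUnion.2 ⟨i, h⟩)⟩
  obtain ⟨f, hf⟩ := Set.countable_iff_exists_injOn.1 hEc
  -- radii
  have hεk : ∀ k : ℕ, 0 < ε / 4 / 2 / 2 ^ k := fun k => by positivity
  choose κ hκ0 hκ1 using fun k : ℕ => hκ (ε / 4 / 2 / 2 ^ k) (hεk k)
  obtain ⟨B, hB⟩ : ∃ B : ℝ → Set ℝ, ∀ e, B e = Ioo (e - κ (f e) / 2) (e + κ (f e) / 2) :=
    ⟨_, fun _ => rfl⟩
  have hBo : ∀ e, IsOpen (B e) := fun e => by rw [hB]; exact isOpen_Ioo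
  have hBm : ∀ e, e ∈ B e := fun e => by
    rw [hB]
    constructor <;> linarith [hκ0 (f e)]
  have hBc : ∀ e, (B e).OrdConnected := fun e => by rw [hB]; exact ordConnected_Ioo
  have hBν : ∀ e, ∀ K : Set ℝ, K.OrdConnected → K ⊆ B e →
      ν K ≤ ENNReal.ofReal (ε / 4 / 2 / 2 ^ (f e)) := by
    intro e K hK hKB
    refine hκ1 (f e) (e - κ (f e) / 2) K hK (hKB.trans ?_)
    rw [hB]
    intro x hx
    constructor
    · exact hx.1.le
    · have := hx.2
      linarith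
  obtain ⟨S, hSE, hScov⟩ := hEcl.elim_nhds_subcover B (fun x _ => (hBo x).mem_nhds (hBm x))
  -- the rest is covered by finitely many interiors
  have hT0 : IsCompact (Icc (-A) A \ ⋃ e ∈ S, B e) :=
    isCompact_Icc.diff (isOpen_biUnion fun e _ => hBo e)
  obtain ⟨F0, hF0⟩ := hT0.elim_finite_subcover (fun i => interior (J i)) (fun i => isOpen_interior)
    (by
      rintro x ⟨hxA, hxB⟩
      by_contra h
      apply hxB
      apply hScov
      rw [hE]
      exact ⟨h, hxA⟩)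
  -- induction
  have key : ∀ T : Finset ℝ, ∃ (J' : ℕ → Set ℝ) (G : Finset ℕ), IsIntPart J' ∧
      lq q (fun i => ν (J' i)) ≤ lq q (fun i => ν (J i))
        + 4 * ∑ e ∈ T, ENNReal.ofReal (ε / 4 / 2 / 2 ^ (f e)) ∧
      ∀ i, i ∉ G → J' i ⊆ J i \ ⋃ e ∈ T, B e := by
    intro T
    induction T using Finset.induction_on with
    | empty =>
      refine ⟨J, ∅, hJ, ?_, ?_⟩
      · simp
      · intro i _
        simp
    | insert e T he ih =>
      obtain ⟨J', G, h1, h2, h3⟩ := ih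
      obtain ⟨J'', i₀, g1, g2, g3, g4⟩ := hABS ν q J' (B e) e
        (ENNReal.ofReal (ε / 4 / 2 / 2 ^ (f e))) hν hq h1 (hBc e) (hBm e) (hBν e)
      refine ⟨J'', insert i₀ G, g1, ?_, ?_⟩
      · rw [Finset.sum_insert he, mul_add]
        refine g4.trans ?_
        calc lq q (fun i => ν (J' i)) + 4 * ENNReal.ofReal (ε / 4 / 2 / 2 ^ (f e))
            ≤ (lq q (fun i => ν (J i)) + 4 * ∑ e ∈ T, ENNReal.ofReal (ε / 4 / 2 / 2 ^ (f e)))
              + 4 * ENNReal.ofReal (ε / 4 / 2 / 2 ^ (f e)) := by gcongr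
          _ = _ := by ring
      · intro i hi
        rw [Finset.mem_insert, not_or] at hi
        rw [g3 i hi.1]
        rintro x ⟨hx1, hx2⟩
        have hx3 := h3 i hi.2 hx1
        refine ⟨hx3.1, ?_⟩
        rw [Finset.set_biUnion_insert]
        rintro (h | h)
        · exact hx2 h
        · exact hx3.2 h
  obtain ⟨J', G, h1, h2, h3⟩ := key S
  refine ⟨J', h1, ?_, ?_⟩
  · refine (G ∪ F0).finite_toSet.subset ?_
    rintro i ⟨x, hxJ, hxA⟩
    by_contra hi
    rw [Finset.mem_coe, Finset.mem_union, not_or] at hi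
    have hx := h3 i hi.1 hxJ
    have hx0 := hF0 ⟨hxA, hx.2⟩
    rw [mem_iUnion₂] at hx0
    obtain ⟨j, hj, hxj⟩ := hx0
    have hij : i ≠ j := by
      rintro rfl
      exact hi.2 hj
    exact Set.disjoint_left.1 (hJ.2.1 i j hij) hx.1 (interior_subset hxj)
  · refine h2.trans ?_
    gcongr
    have e1 : ∑ e ∈ S, ENNReal.ofReal (ε / 4 / 2 / 2 ^ (f e))
        = ENNReal.ofReal (∑ e ∈ S, ε / 4 / 2 / 2 ^ (f e)) :=
      (ENNReal.ofReal_sum_of_nonneg fun e _ => (hεk (f e)).le).symm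
    have e2 : ∑ e ∈ S, ε / 4 / 2 / 2 ^ (f e) ≤ ε / 4 := by
      have hinj : Set.InjOn f (S : Set ℝ) := fun x hx y hy hxy => hf (hSE x hx) (hSE y hy) hxy
      rw [← Finset.sum_image (f := fun k : ℕ => ε / 4 / 2 / 2 ^ k) hinj]
      exact sum_le_hasSum _ (fun k _ => (hεk k).le) (hasSum_geometric_two' (ε / 4))
    rw [e1]
    calc 4 * ENNReal.ofReal (∑ e ∈ S, ε / 4 / 2 / 2 ^ (f e))
        ≤ 4 * ENNReal.ofReal (ε / 4) := by gcongr
      _ = ENNReal.ofReal ε := by
        rw [show (4 : ℝ≥0∞) = ENNReal.ofReal 4 by simp, ← ENNReal.ofReal_mul (by norm_num)]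
        congr 1
        ring

end Pool.Agent.H173FD
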